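import Mathlib
import Pool.Agent.U180.DP.Stm2

/-!
# Randomly displaced primes: package PAIR2, correlations of the events `start`
-/

set_option autoImplicit false

open MeasureTheory ProbabilityTheory Filter Topology

namespace Pool.Agent.U83.DP

open Pool.Agent.U180.DP

/-- the interval `(x, x + y]` as a set of the values of `U k` -/
def pre (A : ℝ) (k : ℕ) (x y : ℝ) : Set ℝ :=
  {u | x < (k : ℝ) + amp A k * u ∧ (k : ℝ) + amp A k * u ≤ x + y}

lemma pre_meas (A : ℝ) (k : ℕ) (x y : ℝ) : MeasurableSet (pre A k x y) := by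
  have h1 : MeasurableSet {u : ℝ | x < (k : ℝ) + amp A k * u} :=
    measurableSet_lt measurable_const (by fun_prop)
  have h2 : MeasurableSet {u : ℝ | (k : ℝ) + amp A k * u ≤ x + y} :=
    measurableSet_le (by fun_prop) measurable_const
  exact h1.inter h2

lemma pre_disj (A : ℝ) (k : ℕ) {x y x' y' : ℝ} (h : x + y ≤ x') :
    Disjoint (pre A k x y) (pre A k x' y') := by
  rw [Set.disjoint_left]
  rintro u ⟨_, h2⟩ ⟨h3, _⟩
  linarith

lemma amp_nonneg (A : ℝ) (k : ℕ) : 0 ≤ amp A k :=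
  div_nonneg (Nat.cast_nonneg _) (Real.rpow_nonneg (Real.log_natCast_nonneg k) A)

lemma prb_zero (A x y : ℝ) (k : ℕ) (h : x + y < k) : prb A x y k = 0 := by
  unfold prb
  have h1 : min ((k : ℝ) + amp A k) (x + y) - max (k : ℝ) x ≤ 0 := by
    have h2 := min_le_right ((k : ℝ) + amp A k) (x + y)
    have h3 := le_max_left (k : ℝ) x
    linarith
  rw [max_eq_left h1, zero_div]

lemma mem_prm {t : ℝ} {k : ℕ} : k ∈ prm t ↔ (k ≤ ⌊t⌋₊) ∧ k.Prime := by
  unfold prm
  rw [Finset.mem_filter, Finset.mem_range, Nat.lt_succ_iff]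

lemma prb_zero' (A x y : ℝ) {k : ℕ} (hk : k.Prime) (h : k ∉ prm (x + y)) : prb A x y k = 0 := by
  rw [mem_prm] at h
  have h1 : ⌊x + y⌋₊ < k := by
    by_contra hc
    exact h ⟨not_lt.1 hc, hk⟩
  exact prb_zero A x y k (Nat.lt_of_floor_lt h1)

theorem prob_inter {Ω : Type} [MeasurableSpace Ω] {P : Measure Ω} {U : ℕ → Ω → ℝ}
    (hU : IsUnif P U) (K : Finset ℕ) (S : ℕ → Set ℝ) (hS : ∀ k, MeasurableSet (S k)) :
    P.real (⋂ k ∈ K, U k ⁻¹' S k) = ∏ k ∈ K, P.real (U k ⁻¹' S k) := by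
  have h := hU.indep.measure_inter_preimage_eq_mul K (sets := S) (fun k _ => hS k)
  simp only [Measure.real]
  rw [h, ENNReal.toReal_prod]

/-- The covering argument. -/
theorem core {Ω : Type} [MeasurableSpace Ω] {P : Measure Ω} {U : ℕ → Ω → ℝ}
    (hU : IsUnif P U) (K : Finset ℕ) (I I' W W' : ℕ → Set ℝ) (hI : ∀ k, MeasurableSet (I k))
    (hI' : ∀ k, MeasurableSet (I' k)) (hW : ∀ k, MeasurableSet (W k))
    (hW' : ∀ k, MeasurableSet (W' k)) (hd : ∀ k, Disjoint (W k) (W' k))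
    (hII : ∀ k, Disjoint (I k) (I' k)) (r r' q q' : ℕ → ℝ)
    (hr : ∀ k ∈ K, P.real (U k ⁻¹' I k) = r k) (hr' : ∀ k ∈ K, P.real (U k ⁻¹' I' k) = r' k)
    (hq : ∀ k ∈ K, P.real (U k ⁻¹' W k) = q k) (hq' : ∀ k ∈ K, P.real (U k ⁻¹' W' k) = q' k)
    (δ : ℝ) (hδ1 : δ < 1) (hqδ : ∀ k ∈ K, q k ≤ δ) (hqδ' : ∀ k ∈ K, q' k ≤ δ)
    (E : Set Ω) (hE : ∀ᵐ ω ∂P, ω ∈ E → (∃ p ∈ K, U p ω ∈ I p) ∧ (∃ p ∈ K, U p ω ∈ I' p) ∧
      ∀ k ∈ K, U k ω ∉ W k ∧ U k ω ∉ W' k) :
    P.real E ≤ ((∑ p ∈ K, r p) * (∑ p ∈ K, r' p)) *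
      (((1 - δ) ^ 4)⁻¹ * ((∏ k ∈ K, (1 - q k)) * ∏ k ∈ K, (1 - q' k))) := by
  classical
  have := hU.prob
  set T : ℕ → ℕ → ℕ → Set ℝ := fun p p' k =>
    if k = p then I k else if k = p' then I' k else (W k ∪ W' k)ᶜ with hT
  have hTm : ∀ p p' k, MeasurableSet (T p p' k) := by
    intro p p' k
    simp only [hT]
    split_ifs
    · exact hI k
    · exact hI' k
    · exact ((hW k).union (hW' k)).compl
  set F : ℕ → ℕ → Set Ω := fun p p' => ⋂ k ∈ K, U k ⁻¹' T p p' k with hF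
  have hr0 : ∀ k ∈ K, 0 ≤ r k := fun k hk => (hr k hk) ▸ measureReal_nonneg
  have hr0' : ∀ k ∈ K, 0 ≤ r' k := fun k hk => (hr' k hk) ▸ measureReal_nonneg
  have hq0 : ∀ k ∈ K, 0 ≤ q k := fun k hk => (hq k hk) ▸ measureReal_nonneg
  have hq0' : ∀ k ∈ K, 0 ≤ q' k := fun k hk => (hq' k hk) ▸ measureReal_nonneg
  have h1δ : 0 < 1 - δ := by linarith
  set g : ℕ → ℝ := fun k => (1 - q k) * (1 - q' k) with hg
  have hg0 : ∀ k ∈ K, (1 - δ) ^ 2 ≤ g k := by
    intro k hk
    have h1 := hqδ k hk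
    have h2 := hqδ' k hk
    simp only [hg]
    nlinarith
  have hgpos : ∀ k ∈ K, 0 < g k := fun k hk => lt_of_lt_of_le (by positivity) (hg0 k hk)
  have hGpos : 0 < ∏ k ∈ K, g k := Finset.prod_pos hgpos
  have hFp : ∀ p ∈ K, ∀ p' ∈ K, p ≠ p' →
      P.real (F p p') ≤ r p * r' p' * (((1 - δ) ^ 4)⁻¹ * ∏ k ∈ K, g k) := by
    intro p hp p' hp' hne
    have hp'2 : p' ∈ K.erase p := Finset.mem_erase.2 ⟨hne.symm, hp'⟩
    have e1 : P.real (F p p') = r p * (r' p' * ∏ k ∈ (K.erase p).erase p',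
        P.real (U k ⁻¹' T p p' k)) := by
      simp only [hF]
      rw [prob_inter hU K _ (hTm p p'), ← Finset.mul_prod_erase K _ hp,
        ← Finset.mul_prod_erase (K.erase p) _ hp'2]
      have e2 : T p p' p = I p := by simp only [hT, if_true]
      have e3 : T p p' p' = I' p' := by simp only [hT, if_neg hne.symm, if_true]
      rw [e2, e3, hr p hp, hr' p' hp']
    have e4 : ∏ k ∈ (K.erase p).erase p', P.real (U k ⁻¹' T p p' k) ≤
        ∏ k ∈ (K.erase p).erase p', g k := by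
      refine Finset.prod_le_prod (fun k _ => measureReal_nonneg) (fun k hk => ?_)
      have hk1 : k ≠ p' := (Finset.mem_erase.1 hk).1
      have hk2 : k ≠ p := (Finset.mem_erase.1 (Finset.mem_erase.1 hk).2).1
      have hkK : k ∈ K := (Finset.mem_erase.1 (Finset.mem_erase.1 hk).2).2
      have e5 : T p p' k = (W k ∪ W' k)ᶜ := by
        simp only [hT]
        rw [if_neg hk2, if_neg hk1]
      have e6 : P.real (U k ⁻¹' T p p' k) = 1 - (q k + q' k) := by
        rw [e5, Set.preimage_compl, probReal_compl_eq_one_sub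
          ((hU.meas k) ((hW k).union (hW' k))), Set.preimage_union,
          measureReal_union ((hd k).preimage _) ((hU.meas k) (hW' k)), hq k hkK, hq' k hkK]
      rw [e6]
      have := mul_nonneg (hq0 k hkK) (hq0' k hkK)
      simp only [hg]
      nlinarith
    have e7 : (∏ k ∈ (K.erase p).erase p', g k) ≤ ((1 - δ) ^ 4)⁻¹ * ∏ k ∈ K, g k := by
      have e8 : ∏ k ∈ K, g k = g p * (g p' * ∏ k ∈ (K.erase p).erase p', g k) := by
        rw [Finset.mul_prod_erase (K.erase p) _ hp'2, Finset.mul_prod_erase K _ hp]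
      have hR : 0 ≤ ∏ k ∈ (K.erase p).erase p', g k := by
        refine Finset.prod_nonneg fun k hk => ?_
        exact (hgpos k (Finset.mem_erase.1 (Finset.mem_erase.1 hk).2).2).le
      have e9 : (1 - δ) ^ 4 ≤ g p * g p' := by
        have a1 := hg0 p hp
        have a2 := hg0 p' hp'
        have a3 : 0 ≤ (1 - δ) ^ 2 := by positivity
        calc (1 - δ) ^ 4 = (1 - δ) ^ 2 * (1 - δ) ^ 2 := by ring
          _ ≤ g p * g p' := mul_le_mul a1 a2 a3 (le_trans a3 a1)
      rw [e8, inv_mul_eq_div, le_div_iff₀ (by positivity)]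
      calc (∏ k ∈ (K.erase p).erase p', g k) * (1 - δ) ^ 4
          ≤ (∏ k ∈ (K.erase p).erase p', g k) * (g p * g p') := mul_le_mul_of_nonneg_left e9 hR
        _ = g p * (g p' * ∏ k ∈ (K.erase p).erase p', g k) := by ring
    rw [e1, mul_assoc]
    refine mul_le_mul_of_nonneg_left ?_ (hr0 p hp)
    exact mul_le_mul_of_nonneg_left (e4.trans e7) (hr0' p' hp')
  set Z := (K ×ˢ K).filter fun z : ℕ × ℕ => z.1 ≠ z.2 with hZ
  have hsub : E ≤ᵐ[P] (⋃ z ∈ Z, F z.1 z.2 : Set Ω) := by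
    filter_upwards [hE] with ω hω hmem
    obtain ⟨⟨p, hp, hp1⟩, ⟨p', hp', hp1'⟩, hk⟩ := hω hmem
    have hne : p ≠ p' := by
      rintro rfl
      exact Set.disjoint_left.1 (hII p) hp1 hp1'
    show ω ∈ (⋃ z ∈ Z, F z.1 z.2 : Set Ω)
    simp only [Set.mem_iUnion]
    refine ⟨(p, p'), Finset.mem_filter.2 ⟨Finset.mem_product.2 ⟨hp, hp'⟩, hne⟩, ?_⟩
    simp only [hF, Set.mem_iInter]
    intro k hkK
    show U k ω ∈ T p p' k
    simp only [hT]
    split_ifs with c1 c2
    · rw [c1]; exact hp1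
    · rw [c2]; exact hp1'
    · rintro (h | h)
      · exact (hk k hkK).1 h
      · exact (hk k hkK).2 h
  have hprod : (∏ k ∈ K, (1 - q k)) * ∏ k ∈ K, (1 - q' k) = ∏ k ∈ K, g k := by
    simp only [hg]
    rw [Finset.prod_mul_distrib]
  rw [hprod]
  set C := ((1 - δ) ^ 4)⁻¹ * ∏ k ∈ K, g k with hC
  have hC0 : 0 ≤ C := by positivity
  calc P.real E ≤ P.real (⋃ z ∈ Z, F z.1 z.2) := by
        simp only [Measure.real]
        exact ENNReal.toReal_mono (measure_ne_top _ _) (measure_mono_ae hsub)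
    _ ≤ ∑ z ∈ Z, P.real (F z.1 z.2) := measureReal_biUnion_finset_le _ _
    _ ≤ ∑ z ∈ Z, r z.1 * r' z.2 * C := by
        refine Finset.sum_le_sum fun z hz => ?_
        obtain ⟨h1, h2⟩ := Finset.mem_filter.1 hz
        obtain ⟨h3, h4⟩ := Finset.mem_product.1 h1
        exact hFp z.1 h3 z.2 h4 h2
    _ ≤ ∑ z ∈ K ×ˢ K, r z.1 * r' z.2 * C := by
        refine Finset.sum_le_sum_of_subset_of_nonneg (Finset.filter_subset _ _) fun z hz _ => ?_
        obtain ⟨h3, h4⟩ := Finset.mem_product.1 hz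
        exact mul_nonneg (mul_nonneg (hr0 _ h3) (hr0' _ h4)) hC0
    _ = ((∑ p ∈ K, r p) * (∑ p ∈ K, r' p)) * C := by
        rw [← Finset.sum_mul, Finset.sum_product, Finset.sum_mul_sum]

lemma prm_mono {s t : ℝ} (h : s ≤ t) : prm s ⊆ prm t := by
  intro k hk
  rw [mem_prm] at hk ⊢
  exact ⟨hk.1.trans (Nat.floor_le_floor h), hk.2⟩

lemma prm_prime {t : ℝ} {k : ℕ} (hk : k ∈ prm t) : k.Prime := (mem_prm.1 hk).2

/-- the choice of the small number -/
lemma small (ε : ℝ) (hε : 0 < ε) : ∃ e : ℝ, 0 < e ∧ e ≤ 1 / 40 ∧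
    ((1 - e) ^ 4)⁻¹ * (((1 + e) ^ 2 / (1 - e)) * ((1 + e) ^ 2 / (1 - e))) ≤ 1 + ε := by
  refine ⟨min ε 1 / 40, by positivity, ?_, ?_⟩
  · have := min_le_right ε 1
    linarith
  · set e := min ε 1 / 40 with he
    have h0 : 0 < e := by positivity
    have h1 : e ≤ 1 / 40 := by
      have := min_le_right ε 1
      linarith
    have h2 : 40 * e ≤ ε := by
      have := min_le_left ε 1
      linarith
    have h3 : (0 : ℝ) < 1 - e := by linarith
    have h4 : ((1 - e) ^ 4)⁻¹ * (((1 + e) ^ 2 / (1 - e)) * ((1 + e) ^ 2 / (1 - e))) =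
        (1 + e) ^ 4 / (1 - e) ^ 6 := by
      field_simp
    rw [h4, div_le_iff₀ (by positivity)]
    have h5 : (1 + e) ^ 4 ≤ 1 + 5 * e := by
      have a1 : e ^ 2 ≤ e * (1 / 40) := by nlinarith
      have a2 : e ^ 3 ≤ e * (1 / 1600) := by nlinarith [mul_nonneg h0.le h0.le]
      have a3 : e ^ 4 ≤ e * (1 / 1600) := by
        have : e ^ 4 = e ^ 3 * e := by ring
        nlinarith [pow_pos h0 3]
      nlinarith
    have h6 : 1 - 6 * e ≤ (1 - e) ^ 6 := by
      have := one_add_mul_le_pow (a := -e) (by linarith) 6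
      have h7 : (1 + -e) ^ 6 = (1 - e) ^ 6 := by ring
      rw [h7] at this
      push_cast at this
      linarith
    have h8 : (1 + 5 * e) ≤ (1 + 40 * e) * (1 - 6 * e) := by nlinarith
    calc (1 + e) ^ 4 ≤ 1 + 5 * e := h5
      _ ≤ (1 + 40 * e) * (1 - 6 * e) := h8
      _ ≤ (1 + ε) * (1 - e) ^ 6 :=
        mul_le_mul (by linarith) h6 (by linarith) (by linarith)

/-- the mean number of displaced primes in `(x - 1, x]` -/
lemma mean_one {e x S : ℝ} (he : 0 < e) (he1 : e ≤ 1 / 40) (hx : Real.exp (4 / e) + 2 ≤ x)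
    (hS : |S - 1 / Real.log (x - 1)| ≤ e * (1 / Real.log (x - 1) ^ 2)) :
    S ≤ (1 + e) / Real.log x := by
  have hx1 : Real.exp (4 / e) ≤ x - 1 := by linarith
  have hpos : 0 < x - 1 := (Real.exp_pos _).trans_le hx1
  have hL' : 4 / e ≤ Real.log (x - 1) := by
    rw [Real.le_log_iff_exp_le hpos]
    exact hx1
  have h4e : 0 < 4 / e := by positivity
  have hL'0 : 0 < Real.log (x - 1) := h4e.trans_le hL'
  have hL : Real.log x ≤ Real.log (x - 1) + 1 := by
    have h1 : x / (x - 1) = 1 + 1 / (x - 1) := by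
      field_simp
      ring
    have h2 : Real.log (x / (x - 1)) ≤ x / (x - 1) - 1 := Real.log_le_sub_one_of_pos (by
      have : 0 < x := by linarith
      positivity)
    rw [Real.log_div (by linarith) (by linarith)] at h2
    have h3 : 1 / (x - 1) ≤ 1 := by
      rw [div_le_one hpos]
      have := Real.exp_pos (4 / e)
      linarith
    linarith
  have hLpos : 0 < Real.log x := hL'0.trans_le (Real.log_le_log hpos (by linarith))
  set L' := Real.log (x - 1) with hL'def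
  have hS1 : S ≤ 1 / L' + e * (1 / L' ^ 2) := by
    have := (abs_le.1 hS).2
    linarith
  rw [le_div_iff₀ hLpos]
  have h5 : 0 ≤ 1 / L' + e * (1 / L' ^ 2) := by positivity
  have h6 : S * Real.log x ≤ (1 / L' + e * (1 / L' ^ 2)) * (L' + 1) :=
    (mul_le_mul_of_nonneg_right hS1 hLpos.le).trans (mul_le_mul_of_nonneg_left hL h5)
  refine h6.trans ?_
  set t := 1 / L' with ht
  have ht0 : 0 < t := by positivity
  have ht1 : t ≤ e / 4 := by
    rw [ht, div_le_iff₀ hL'0]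
    have := mul_le_mul_of_nonneg_left hL' (show 0 ≤ e / 4 by positivity)
    have h7 : e / 4 * (4 / e) = 1 := by field_simp
    linarith
  have h8 : (t + e * (1 / L' ^ 2)) * (L' + 1) = (1 + e * t) * (1 + t) := by
    rw [ht]
    field_simp
  rw [h8]
  nlinarith [mul_nonneg ht0.le ht0.le, mul_nonneg he.le ht0.le,
    mul_nonneg (mul_nonneg he.le ht0.le) ht0.le]

theorem t_PAIR2 (h1 : S_PREC) (h2 : S_LAW) (h3 : S_VOID2) (h4 : S_START) : S_PAIR2 := by
  intro A ε hA hε
  have hA0 : 0 < A := by linarith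
  obtain ⟨e, he0, he1, heε⟩ := small ε hε
  obtain ⟨X1, hX1⟩ := h1 A e hA he0
  obtain ⟨X3, hX3⟩ := h3 A e hA he0
  obtain ⟨X4, hX4⟩ := h4 A e hA he0
  refine ⟨max (max X1 X3) (max X4 (Real.exp (4 / e))) + 2, ?_⟩
  intro Ω _ P U hU x y x' y' hx hy hyL hxx' hy' hyL'
  have := hU.prob
  obtain ⟨l1, l2, l3, l4, -⟩ := h2 Ω P A U hU hA0
  have key : ∀ x y : ℝ, max (max X1 X3) (max X4 (Real.exp (4 / e))) + 2 ≤ x → 0 < y →
      y ≤ 2 * Real.log x ^ 2 → ∀ K : Finset ℕ, prm (x + y) ⊆ K → (∀ k ∈ K, k.Prime) →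
      ((∑ p ∈ K, prb A (x - 1) 1 p) * ∏ k ∈ K, (1 - prb A x y k) ≤
        (1 + e) ^ 2 / (1 - e) * P.real (start A U x y)) ∧
      (∀ k ∈ K, prb A x y k ≤ e) ∧ 0 ≤ (∑ p ∈ K, prb A (x - 1) 1 p) * ∏ k ∈ K, (1 - prb A x y k) := by
    intro x y hx hy hyL K hK hKp
    have a1 : X1 + 2 ≤ x := le_trans (by gcongr; exact (le_max_left _ _).trans (le_max_left _ _)) hx
    have a3 : X3 + 2 ≤ x := le_trans (by gcongr; exact (le_max_right _ _).trans (le_max_left _ _)) hx
    have a4 : X4 + 2 ≤ x := le_trans (by gcongr; exact (le_max_left _ _).trans (le_max_right _ _)) hx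
    have a5 : Real.exp (4 / e) + 2 ≤ x :=
      le_trans (by gcongr; exact (le_max_right _ _).trans (le_max_right _ _)) hx
    have hexp := Real.exp_pos (4 / e)
    have h160 : 160 ≤ 4 / e := by
      rw [le_div_iff₀ he0]
      linarith
    have hlog' : 4 / e ≤ Real.log (x - 1) := by
      rw [Real.le_log_iff_exp_le (by linarith)]
      linarith
    have hlog : 4 / e ≤ Real.log x :=
      hlog'.trans (Real.log_le_log (by linarith) (by linarith))
    have hLpos : 0 < Real.log x := by linarith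
    have b1 : y ≤ Real.log x ^ 3 := by
      refine hyL.trans ?_
      have : Real.log x ^ 3 = Real.log x * Real.log x ^ 2 := by ring
      rw [this]
      exact mul_le_mul_of_nonneg_right (by linarith) (by positivity)
    have b2 : (1 : ℝ) ≤ Real.log (x - 1) ^ 3 := one_le_pow₀ (by linarith)
    obtain ⟨-, c1⟩ := hX1 x y (by linarith) hy b1
    obtain ⟨c2, c3⟩ := hX1 (x - 1) 1 (by linarith) one_pos b2
    have hsmall : 1 / Real.log x ^ 4 ≤ e := by
      rw [div_le_iff₀ (by positivity)]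
      have d1 : 4 ≤ e * Real.log x := by
        have := mul_le_mul_of_nonneg_left hlog he0.le
        have h7 : e * (4 / e) = 4 := by field_simp
        linarith
      have d2 : 1 ≤ Real.log x ^ 3 := one_le_pow₀ (by linarith)
      calc (1 : ℝ) ≤ (e * Real.log x) * Real.log x ^ 3 := by nlinarith
        _ = e * Real.log x ^ 4 := by ring
    have hle : ∀ k ∈ K, prb A x y k ≤ e := by
      intro k hk
      by_cases hk1 : k ∈ prm (x + y)
      · exact ((c1 k hk1).2).trans hsmall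
      · rw [prb_zero' A x y (hKp k hk) hk1]
        exact he0.le
    have hr0 : ∀ k ∈ K, 0 ≤ prb A (x - 1) 1 k := by
      intro k hk
      by_cases hk1 : k ∈ prm (x - 1 + 1)
      · exact (c3 k hk1).1
      · rw [prb_zero' A (x - 1) 1 (hKp k hk) hk1]
    have hP0 : 0 ≤ ∏ k ∈ K, (1 - prb A x y k) :=
      Finset.prod_nonneg fun k hk => by
        have := hle k hk
        linarith
    have hS0 : 0 ≤ ∑ p ∈ K, prb A (x - 1) 1 p := Finset.sum_nonneg hr0
    have hsum : ∑ p ∈ K, prb A (x - 1) 1 p = ∑ p ∈ prm (x - 1 + 1), prb A (x - 1) 1 p := by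
      symm
      refine Finset.sum_subset ((prm_mono (by linarith)).trans hK) fun k hk hk1 => ?_
      exact prb_zero' A (x - 1) 1 (hKp k hk) hk1
    have hprod : ∏ k ∈ K, (1 - prb A x y k) = P.real (void A U x y) := by
      rw [l4 x y (by linarith) hy.le]
      symm
      refine Finset.prod_subset hK fun k hk hk1 => ?_
      rw [prb_zero' A x y (hKp k hk) hk1, sub_zero]
    refine ⟨?_, hle, mul_nonneg hS0 hP0⟩
    have hS : ∑ p ∈ K, prb A (x - 1) 1 p ≤ (1 + e) / Real.log x := by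
      rw [hsum]
      exact mean_one he0 he1 a5 c2
    have hV : ∏ k ∈ K, (1 - prb A x y k) ≤ (1 + e) * Real.exp (-(y / Real.log x)) := by
      rw [hprod]
      exact (hX3 Ω P U hU x y (by linarith) hy hyL).2
    have hSt := (hX4 Ω P U hU x y (by linarith) hy hyL).1
    have h1e : 0 < 1 - e := by linarith
    calc (∑ p ∈ K, prb A (x - 1) 1 p) * ∏ k ∈ K, (1 - prb A x y k)
        ≤ ((1 + e) / Real.log x) * ((1 + e) * Real.exp (-(y / Real.log x))) :=
          mul_le_mul hS hV hP0 (by positivity)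
      _ = (1 + e) ^ 2 / (1 - e) * ((1 - e) / Real.log x * Real.exp (-(y / Real.log x))) := by
          field_simp
      _ ≤ (1 + e) ^ 2 / (1 - e) * P.real (start A U x y) :=
          mul_le_mul_of_nonneg_left hSt (by positivity)
  set K := prm (x' + y') with hKdef
  have hx2 : (2 : ℝ) ≤ x := by
    have : 0 < Real.exp (4 / e) := Real.exp_pos _
    have h5 : Real.exp (4 / e) ≤ max (max X1 X3) (max X4 (Real.exp (4 / e))) :=
      (le_max_right _ _).trans (le_max_right _ _)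
    linarith
  have hK1 : prm (x + y) ⊆ K := prm_mono (by linarith)
  have hKp : ∀ k ∈ K, k.Prime := fun k hk => prm_prime hk
  obtain ⟨k1, k2, k3⟩ := key x y hx hy hyL K hK1 hKp
  obtain ⟨k1', k2', k3'⟩ := key x' y' (by linarith) hy' hyL' K (by rw [hKdef]) hKp
  have hcore := core hU K (fun k => pre A k (x - 1) 1) (fun k => pre A k (x' - 1) 1)
    (fun k => pre A k x y) (fun k => pre A k x' y') (fun k => pre_meas _ _ _ _)
    (fun k => pre_meas _ _ _ _) (fun k => pre_meas _ _ _ _) (fun k => pre_meas _ _ _ _)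
    (fun k => pre_disj A k (by linarith)) (fun k => pre_disj A k (by linarith))
    (fun k => prb A (x - 1) 1 k) (fun k => prb A (x' - 1) 1 k) (fun k => prb A x y k)
    (fun k => prb A x' y' k)
    (fun k hk => l2 (x - 1) 1 k (hKp k hk) zero_le_one)
    (fun k hk => l2 (x' - 1) 1 k (hKp k hk) zero_le_one)
    (fun k hk => l2 x y k (hKp k hk) hy.le) (fun k hk => l2 x' y' k (hKp k hk) hy'.le)
    e (by linarith) k2 k2' (start A U x y ∩ start A U x' y') ?_
  · have h1e : 0 < 1 - e := by linarith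
    calc P.real (start A U x y ∩ start A U x' y')
        ≤ ((∑ p ∈ K, prb A (x - 1) 1 p) * (∑ p ∈ K, prb A (x' - 1) 1 p)) *
          (((1 - e) ^ 4)⁻¹ * ((∏ k ∈ K, (1 - prb A x y k)) * ∏ k ∈ K, (1 - prb A x' y' k))) :=
          hcore
      _ = ((1 - e) ^ 4)⁻¹ * (((∑ p ∈ K, prb A (x - 1) 1 p) * ∏ k ∈ K, (1 - prb A x y k)) *
          ((∑ p ∈ K, prb A (x' - 1) 1 p) * ∏ k ∈ K, (1 - prb A x' y' k))) := by ring
      _ ≤ ((1 - e) ^ 4)⁻¹ * (((1 + e) ^ 2 / (1 - e) * P.real (start A U x y)) *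
          ((1 + e) ^ 2 / (1 - e) * P.real (start A U x' y'))) := by
          refine mul_le_mul_of_nonneg_left ?_ (by positivity)
          exact mul_le_mul k1 k1' k3' (k3.trans k1)
      _ = ((1 - e) ^ 4)⁻¹ * (((1 + e) ^ 2 / (1 - e)) * ((1 + e) ^ 2 / (1 - e))) *
          (P.real (start A U x y) * P.real (start A U x' y')) := by ring
      _ ≤ (1 + ε) * (P.real (start A U x y) * P.real (start A U x' y')) :=
          mul_le_mul_of_nonneg_right heε (mul_nonneg measureReal_nonneg measureReal_nonneg)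
  · filter_upwards [l3] with ω hω hmem
    obtain ⟨⟨v1, v2⟩, ⟨v3, v4⟩⟩ := hmem
    have hexist : ∀ z : ℝ, z ≤ x' + y' → ω ∉ void A U (z - 1) 1 →
        ∃ p ∈ K, U p ω ∈ pre A p (z - 1) 1 := by
      intro z hz hv
      unfold void at hv
      simp only [Set.mem_ofPred_eq, not_forall, not_not] at hv
      obtain ⟨p, hp, hp1, hp2⟩ := hv
      refine ⟨p, ?_, hp1, hp2⟩
      rw [hKdef, mem_prm]
      refine ⟨Nat.le_floor ?_, hp⟩
      have h5 : (p : ℝ) ≤ dis A U p ω := by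
        unfold dis
        have := mul_nonneg (amp_nonneg A p) (hω p).1
        linarith
      linarith
    refine ⟨hexist x (by linarith) v2, hexist x' (by linarith) v4, fun k hk => ⟨?_, ?_⟩⟩
    · exact fun h => v1 k (hKp k hk) h
    · exact fun h => v3 k (hKp k hk) h

end Pool.Agent.U83.DP
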